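import Pool.Agent.U398.MV.Stm3
import Pool.Agent.U747.MV.EN

set_option autoImplicit false

/-! Package CE of project MV3: the cross energy (abstract). -/

namespace Pool.Agent.U473.MV3.CE

open MeasureTheory Filter Topology Set Complex
open Pool.Agent.U398.MV (S_CE)
open Pool.Agent.U747.MV (int_pow int_parts)

lemma young {q : ℝ} (hq : 0 < q) (x y : ℝ) : x * y ≤ (q * x ^ 2 + 1 / q * y ^ 2) / 2 := by
  have h1 : 0 ≤ (q * x - y) ^ 2 / q := div_nonneg (sq_nonneg _) hq.le
  have h2 : (q * x - y) ^ 2 / q = q * x ^ 2 - 2 * (x * y) + 1 / q * y ^ 2 := by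
    field_simp
    ring
  linarith

/-- one frequency, inner part -/
lemma one_in {c0 ε α β a b c : ℝ} (hc0 : 0 ≤ c0) (hc1 : c0 ≤ 1) (ha : 0 < a) (hb : 0 < b)
    (hc : 0 < c) (hab : α ≤ β)
    (W G Q D : ℝ → ℂ) (hW : Continuous W) (hG : Continuous G) (hQ : Continuous Q)
    (hD : Continuous D) (hE : ∀ t ∈ Icc α β, ‖W t + (c0 : ℂ) * Q t + D t‖ ≤ ε) :
    (∫ t in α..β, ‖W t‖ * ‖G t‖) ≤
      (a * (ε ^ 2 * (β - α)) + 1 / a * ∫ t in α..β, ‖G t‖ ^ 2) / 2 +
      (b * (∫ t in α..β, ‖Q t‖ ^ 2) + 1 / b * ∫ t in α..β, ‖G t‖ ^ 2) / 2 +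
      (c * (∫ t in α..β, ‖D t‖ ^ 2) + 1 / c * ∫ t in α..β, ‖G t‖ ^ 2) / 2 := by
  have iG : IntervalIntegrable (fun t => ‖G t‖ ^ 2) volume α β := (hG.norm.pow 2).intervalIntegrable _ _
  have iQ : IntervalIntegrable (fun t => ‖Q t‖ ^ 2) volume α β := (hQ.norm.pow 2).intervalIntegrable _ _
  have iD : IntervalIntegrable (fun t => ‖D t‖ ^ 2) volume α β := (hD.norm.pow 2).intervalIntegrable _ _
  have h1 : (∫ t in α..β, ‖W t‖ * ‖G t‖) ≤ ∫ t in α..β,
      ((a / 2 * ε ^ 2 + (1 / a / 2 + 1 / b / 2 + 1 / c / 2) * ‖G t‖ ^ 2) + b / 2 * ‖Q t‖ ^ 2) +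
        c / 2 * ‖D t‖ ^ 2 := by
    have iWG : IntervalIntegrable (fun t => ‖W t‖ * ‖G t‖) volume α β :=
      (hW.norm.mul hG.norm).intervalIntegrable _ _
    apply intervalIntegral.integral_mono_on hab iWG
    · apply Continuous.intervalIntegrable
      fun_prop
    · intro t ht
      have hW1 : ‖W t‖ ≤ ε + ‖Q t‖ + ‖D t‖ := by
        have e1 : W t = (W t + (c0 : ℂ) * Q t + D t) - (c0 : ℂ) * Q t - D t := by ring
        have e2 : ‖(c0 : ℂ) * Q t‖ ≤ ‖Q t‖ := by
          rw [norm_mul, Complex.norm_real, Real.norm_eq_abs, abs_of_nonneg hc0]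
          exact mul_le_of_le_one_left (norm_nonneg _) hc1
        calc ‖W t‖ = ‖(W t + (c0 : ℂ) * Q t + D t) - (c0 : ℂ) * Q t - D t‖ := by rw [← e1]
          _ ≤ ‖(W t + (c0 : ℂ) * Q t + D t) - (c0 : ℂ) * Q t‖ + ‖D t‖ := norm_sub_le _ _
          _ ≤ (‖W t + (c0 : ℂ) * Q t + D t‖ + ‖(c0 : ℂ) * Q t‖) + ‖D t‖ :=
            add_le_add (norm_sub_le _ _) le_rfl
          _ ≤ ε + ‖Q t‖ + ‖D t‖ := by linarith [hE t ht]
      have h2 : ‖W t‖ * ‖G t‖ ≤ (ε + ‖Q t‖ + ‖D t‖) * ‖G t‖ :=
        mul_le_mul_of_nonneg_right hW1 (norm_nonneg _)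
      have h3 := young ha ε ‖G t‖
      have h4 := young hb ‖Q t‖ ‖G t‖
      have h5 := young hc ‖D t‖ ‖G t‖
      nlinarith
  refine h1.trans (le_of_eq ?_)
  rw [intervalIntegral.integral_add ((intervalIntegrable_const.add (iG.const_mul _)).add
      (iQ.const_mul _)) (iD.const_mul _),
    intervalIntegral.integral_add (intervalIntegrable_const.add (iG.const_mul _)) (iQ.const_mul _),
    intervalIntegral.integral_add intervalIntegrable_const (iG.const_mul _),
    intervalIntegral.integral_const, intervalIntegral.integral_const_mul,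
    intervalIntegral.integral_const_mul, intervalIntegral.integral_const_mul, smul_eq_mul]
  ring

/-- the outer part and the total -/
lemma total {T L M : ℝ} (hab : T + L ≤ 2 * T - L) (W G : ℝ → ℂ) (hW : Continuous W)
    (hG : Continuous G) (iW : Integrable (fun t : ℝ => ‖W t‖ ^ 2))
    (iG : Integrable (fun t : ℝ => ‖G t‖ ^ 2))
    (hWo : ∫ t in (Icc (T + L) (2 * T - L))ᶜ, ‖W t‖ ^ 2 ≤ M)
    (hGo : ∫ t in (Icc (T + L) (2 * T - L))ᶜ, ‖G t‖ ^ 2 ≤ M) :
    |(∫ t : ℝ, W t * (starRingEnd ℂ) (G t)).re| ≤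
      (∫ t in (T + L)..(2 * T - L), ‖W t‖ * ‖G t‖) + M := by
  have hi : Integrable (fun t : ℝ => ‖W t‖ * ‖G t‖) := by
    refine Integrable.mono' ((iW.add iG).div_const 2) (hW.norm.mul hG.norm).aestronglyMeasurable
      (ae_of_all _ fun t => ?_)
    rw [Real.norm_eq_abs, abs_of_nonneg (mul_nonneg (norm_nonneg _) (norm_nonneg _))]
    simp only [Pi.add_apply]
    nlinarith [sq_nonneg (‖W t‖ - ‖G t‖)]
  have h1 : |(∫ t : ℝ, W t * (starRingEnd ℂ) (G t)).re| ≤ ∫ t : ℝ, ‖W t‖ * ‖G t‖ := by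
    refine (Complex.abs_re_le_norm _).trans (norm_integral_le_of_norm_le hi (ae_of_all _ fun t => ?_))
    rw [norm_mul, RCLike.norm_conj]
  have h2 : (∫ t : ℝ, ‖W t‖ * ‖G t‖) = (∫ t in (T + L)..(2 * T - L), ‖W t‖ * ‖G t‖) +
      ∫ t in (Icc (T + L) (2 * T - L))ᶜ, ‖W t‖ * ‖G t‖ := by
    rw [← integral_add_compl (measurableSet_Icc (a := T + L) (b := 2 * T - L)) hi,
      intervalIntegral.integral_of_le hab, integral_Icc_eq_integral_Ioc]
  have h3 : ∫ t in (Icc (T + L) (2 * T - L))ᶜ, ‖W t‖ * ‖G t‖ ≤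
      ∫ t in (Icc (T + L) (2 * T - L))ᶜ, (‖W t‖ ^ 2 / 2 + ‖G t‖ ^ 2 / 2) := by
    refine integral_mono hi.integrableOn ((iW.div_const 2).add (iG.div_const 2)).integrableOn
      fun t => ?_
    simp only
    nlinarith [sq_nonneg (‖W t‖ - ‖G t‖)]
  rw [integral_add (iW.div_const 2).integrableOn (iG.div_const 2).integrableOn, integral_div,
    integral_div] at h3
  linarith

lemma tail_int {M : ℝ} (hM : 0 < M) : IntegrableOn (fun u : ℝ => u ^ (-2 : ℝ)) (Ioi M) ∧
    ∫ u in Ioi M, u ^ (-2 : ℝ) = 1 / M := by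
  refine ⟨integrableOn_Ioi_rpow_of_lt (by norm_num) hM, ?_⟩
  rw [integral_Ioi_rpow_of_lt (by norm_num) hM]
  norm_num
  rw [Real.rpow_neg_one]

theorem t_CE : S_CE := by
  intro C1 δ hC1 hδ
  refine ⟨200 * C1 ^ 2 + 4 * C1 / δ, by positivity, ?_⟩
  intro T L K hL hLT hK W G Q D r cW cG cQ cD cr hr1 hr2 iW iG hWo hGo hWi hGh hGl hE hQn hDn hFi
  have hL0 : (0 : ℝ) < L := by linarith
  have hL3 : L * 64 ≤ L ^ 4 := by
    have h1 : (64 : ℝ) ≤ L ^ 3 := by
      calc (64 : ℝ) = 4 ^ 3 := by norm_num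
        _ ≤ L ^ 3 := pow_le_pow_left₀ (by norm_num) hL 3
    calc L * 64 ≤ L * L ^ 3 := mul_le_mul_of_nonneg_left h1 hL0.le
      _ = L ^ 4 := by ring
  have hT0 : (0 : ℝ) < T := by linarith
  have hC0 : (0 : ℝ) < C1 := by linarith
  have hK0 : (0 : ℝ) < K := by linarith
  have hM : (1 : ℝ) ≤ L / 2 := by linarith
  have hM0 : (0 : ℝ) ≤ L / 2 := by linarith
  have hab : T + L ≤ 2 * T - L := by linarith
  have hpi := Real.pi_gt_three
  have hC2 : C1 ≤ C1 ^ 2 := by nlinarith
  set c0 : ℝ := 1 / Real.sqrt (2 * Real.pi) with hc0def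
  have hc00 : 0 ≤ c0 := by positivity
  have hc0sq : c0 ^ 2 = 1 / (2 * Real.pi) := by
    rw [hc0def, div_pow, one_pow, Real.sq_sqrt (by positivity)]
  have hc01 : c0 ≤ 1 := by
    have h1 : c0 ^ 2 ≤ 1 := by
      rw [hc0sq, div_le_one (by positivity)]
      linarith
    nlinarith
  have cD2 : Continuous (Function.uncurry fun u t : ℝ => ‖D u t‖ ^ 2) := by
    have h1 : Continuous fun p : ℝ × ℝ => ‖D p.1 p.2‖ ^ 2 := cD.norm.pow 2
    exact h1
  have cA : Continuous fun u => ∫ t in (T + L)..(2 * T - L), ‖D u t‖ ^ 2 :=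
    intervalIntegral.continuous_parametric_intervalIntegral_of_continuous' cD2 _ _
  have hA0 : ∀ u, 0 ≤ ∫ t in (T + L)..(2 * T - L), ‖D u t‖ ^ 2 := fun u =>
    intervalIntegral.integral_nonneg hab fun t _ => sq_nonneg _
  set F : ℝ → ℝ := fun u => r u * (∫ t : ℝ, W u t * (starRingEnd ℂ) (G u t)).re with hFdef
  have hcu : ∀ u : ℝ, Continuous fun t : ℝ => ((u, t) : ℝ × ℝ) := fun u => by fun_prop
  have htot : ∀ u, 0 ≤ u → |(∫ t : ℝ, W u t * (starRingEnd ℂ) (G u t)).re| ≤
      (∫ t in (T + L)..(2 * T - L), ‖W u t‖ * ‖G u t‖) + C1 * T := fun u hu =>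
    total hab (W u) (G u) (cW.comp (hcu u)) (cG.comp (hcu u)) (iW u) (iG u) (hWo u hu) (hGo u hu)
  -- low frequencies
  have hpt : ∀ u ∈ Icc 0 (L / 2), |F u| ≤
      (4 * C1 * K * T / δ + 2 * C1 * K * T) / L +
        20 * C1 ^ 2 * K * T * (1 / ((1 + u) * Real.sqrt (1 + u))) +
        2 * K * L * ((∫ t in (T + L)..(2 * T - L), ‖D u t‖ ^ 2) * (1 / (1 + u) ^ 3)) := by
    intro u hu
    have hu0 := hu.1
    have hu1 := hu.2
    set A := ∫ t in (T + L)..(2 * T - L), ‖D u t‖ ^ 2 with hAdef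
    have hAn : 0 ≤ A := hA0 u
    set Gn := ∫ t in (T + L)..(2 * T - L), ‖G u t‖ ^ 2 with hGndef
    set Qn := ∫ t in (T + L)..(2 * T - L), ‖Q u t‖ ^ 2 with hQndef
    set s := 1 + u with hs
    have hs1 : 1 ≤ s := by linarith
    have hs0 : 0 < s := by linarith
    have hq0 : 0 < Real.sqrt s := Real.sqrt_pos.2 hs0
    have hq1 : 1 ≤ Real.sqrt s := by
      rw [← Real.sqrt_one]
      exact Real.sqrt_le_sqrt hs1
    have hqq : Real.sqrt s * Real.sqrt s = s := Real.mul_self_sqrt hs0.le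
    set q := Real.sqrt s with hq
    have hr : |r u| * s ^ 2 ≤ 4 := by
      have h1 := hr1 u
      have h2 := hr2 u
      have h3 : s ^ 2 ≤ 2 + 2 * u ^ 2 := by
        rw [hs]
        nlinarith [sq_nonneg (1 - u)]
      calc |r u| * s ^ 2 ≤ |r u| * (2 + 2 * u ^ 2) := mul_le_mul_of_nonneg_left h3 (abs_nonneg _)
        _ = 2 * |r u| + 2 * (|r u| * u ^ 2) := by ring
        _ ≤ 4 := by linarith
    have hr' : |r u| ≤ 4 / s ^ 2 := by
      rw [le_div_iff₀ (by positivity)]
      exact hr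
    have hG : Gn ≤ C1 * K ^ 2 * T * s := hGl u hu0 hu1
    have hGn0 : 0 ≤ Gn := intervalIntegral.integral_nonneg hab fun t _ => sq_nonneg _
    have hQ := hQn u hu0 hu1
    rw [← hQndef] at hQ
    have hε : (C1 * (Real.exp (-u) + 1 / L)) ^ 2 * (2 * T - L - (T + L)) ≤ 4 * C1 ^ 2 * T := by
      have h1 : Real.exp (-u) ≤ 1 := Real.exp_le_one_iff.2 (by linarith)
      have h2 : 1 / L ≤ 1 := by
        rw [div_le_one hL0]
        linarith
      have h3 : 0 < Real.exp (-u) := Real.exp_pos _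
      have h4 : 0 < 1 / L := by positivity
      have h5 : Real.exp (-u) + 1 / L ≤ 2 := by linarith
      have h6 : (C1 * (Real.exp (-u) + 1 / L)) ^ 2 ≤ 4 * C1 ^ 2 := by
        calc (C1 * (Real.exp (-u) + 1 / L)) ^ 2 = C1 ^ 2 * (Real.exp (-u) + 1 / L) ^ 2 := by ring
          _ ≤ C1 ^ 2 * 2 ^ 2 :=
            mul_le_mul_of_nonneg_left (pow_le_pow_left₀ (by positivity) h5 2) (sq_nonneg _)
          _ = 4 * C1 ^ 2 := by ring
      exact mul_le_mul h6 (by linarith) (by linarith) (by positivity)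
    -- the three parts
    have ha : 0 < K * q := by positivity
    have hc : 0 < K * L / s := by positivity
    -- the `Q` part: choose `b`
    obtain ⟨b, hb, hbQ⟩ : ∃ b : ℝ, 0 < b ∧ 4 / s ^ 2 * ((b * Qn + 1 / b * Gn) / 2) ≤
        4 * C1 * K * T * (1 / (s * q)) + 4 * C1 * K * T / δ / L := by
      by_cases h1 : u ≤ δ * L
      · refine ⟨K * q, ha, ?_⟩
        rw [if_pos h1, add_zero, mul_one] at hQ
        have e1 : K * q * Qn ≤ K * q * (C1 * T) := mul_le_mul_of_nonneg_left hQ ha.le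
        have e2 : 1 / (K * q) * Gn ≤ 1 / (K * q) * (C1 * K ^ 2 * T * s) :=
          mul_le_mul_of_nonneg_left hG (by positivity)
        have e3 : 1 / (K * q) * (C1 * K ^ 2 * T * s) = K * q * (C1 * T) := by
          rw [← hqq]; field_simp
        have e4 : 4 / s ^ 2 * ((K * q * Qn + 1 / (K * q) * Gn) / 2) ≤
            4 / s ^ 2 * (K * q * (C1 * T)) := by
          apply mul_le_mul_of_nonneg_left _ (by positivity)
          linarith
        have e5 : 4 / s ^ 2 * (K * q * (C1 * T)) = 4 * C1 * K * T * (1 / (s * q)) := by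
          rw [← hqq]; field_simp
        have e6 : 0 ≤ 4 * C1 * K * T / δ / L := by positivity
        linarith
      · refine ⟨K, hK0, ?_⟩
        rw [if_neg h1] at hQ
        push Not at h1
        have e1 : K * Qn ≤ K * (C1 * T * s) := mul_le_mul_of_nonneg_left hQ hK0.le
        have e2 : 1 / K * Gn ≤ 1 / K * (C1 * K ^ 2 * T * s) :=
          mul_le_mul_of_nonneg_left hG (by positivity)
        have e3 : 1 / K * (C1 * K ^ 2 * T * s) = K * (C1 * T * s) := by
          field_simp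
        have e4 : 4 / s ^ 2 * ((K * Qn + 1 / K * Gn) / 2) ≤ 4 / s ^ 2 * (K * (C1 * T * s)) := by
          apply mul_le_mul_of_nonneg_left _ (by positivity)
          linarith
        have e5 : 4 / s ^ 2 * (K * (C1 * T * s)) = 4 * C1 * K * T * (1 / s) := by
          field_simp
        have e6 : 1 / s ≤ 1 / (δ * L) := by
          apply one_div_le_one_div_of_le (by positivity)
          linarith
        have e7 : 4 * C1 * K * T * (1 / s) ≤ 4 * C1 * K * T * (1 / (δ * L)) :=
          mul_le_mul_of_nonneg_left e6 (by positivity)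
        have e8 : 4 * C1 * K * T * (1 / (δ * L)) = 4 * C1 * K * T / δ / L := by
          field_simp
        have e9 : 0 ≤ 4 * C1 * K * T * (1 / (s * q)) := by positivity
        linarith
    have hone := one_in (ε := C1 * (Real.exp (-u) + 1 / L)) hc00 hc01 ha hb hc hab (W u) (G u)
      (Q u) (D u) (cW.comp (hcu u)) (cG.comp (hcu u)) (cQ.comp (hcu u)) (cD.comp (hcu u))
      (fun t ht => hE u hu0 hu1 t ht)
    rw [← hAdef, ← hGndef, ← hQndef] at hone
    have hF1 : |F u| ≤ 4 / s ^ 2 * ((∫ t in (T + L)..(2 * T - L), ‖W u t‖ * ‖G u t‖) + C1 * T) := by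
      rw [hFdef]
      simp only
      rw [abs_mul]
      exact mul_le_mul hr' (htot u hu0) (abs_nonneg _) (by positivity)
    -- part `E`
    have g1 : 4 / s ^ 2 * ((K * q * ((C1 * (Real.exp (-u) + 1 / L)) ^ 2 * (2 * T - L - (T + L))) +
        1 / (K * q) * Gn) / 2) ≤ 10 * C1 ^ 2 * K * T * (1 / (s * q)) := by
      have e1 := mul_le_mul_of_nonneg_left hε ha.le
      have e2 : 1 / (K * q) * Gn ≤ 1 / (K * q) * (C1 * K ^ 2 * T * s) :=
        mul_le_mul_of_nonneg_left hG (by positivity)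
      have e3 : 1 / (K * q) * (C1 * K ^ 2 * T * s) = K * q * (C1 * T) := by
        rw [← hqq]; field_simp
      have e3' : K * q * (C1 * T) ≤ K * q * (C1 ^ 2 * T) := by
        apply mul_le_mul_of_nonneg_left _ ha.le
        exact mul_le_mul_of_nonneg_right hC2 hT0.le
      have e4 : 4 / s ^ 2 * ((K * q * ((C1 * (Real.exp (-u) + 1 / L)) ^ 2 *
          (2 * T - L - (T + L))) + 1 / (K * q) * Gn) / 2) ≤
          4 / s ^ 2 * (5 / 2 * (K * q * (C1 ^ 2 * T))) := by
        apply mul_le_mul_of_nonneg_left _ (by positivity)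
        linarith
      refine e4.trans (le_of_eq ?_)
      rw [← hqq]; field_simp; ring
    -- part `D`
    have g3 : 4 / s ^ 2 * ((K * L / s * A + 1 / (K * L / s) * Gn) / 2) ≤
        2 * K * L * (A * (1 / s ^ 3)) + 2 * C1 * K * T / L := by
      have e2 : 1 / (K * L / s) * Gn ≤ 1 / (K * L / s) * (C1 * K ^ 2 * T * s) :=
        mul_le_mul_of_nonneg_left hG (by positivity)
      have e4 : 4 / s ^ 2 * ((K * L / s * A + 1 / (K * L / s) * Gn) / 2) ≤
          4 / s ^ 2 * ((K * L / s * A + 1 / (K * L / s) * (C1 * K ^ 2 * T * s)) / 2) := by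
        apply mul_le_mul_of_nonneg_left _ (by positivity)
        linarith
      refine e4.trans (le_of_eq ?_)
      field_simp
      ring
    have g4 : 4 / s ^ 2 * (C1 * T) ≤ 4 * C1 ^ 2 * K * T * (1 / (s * q)) := by
      have h1 : 1 / s ^ 2 ≤ 1 / (s * q) := by
        apply one_div_le_one_div_of_le (by positivity)
        have : q ≤ s := by nlinarith
        nlinarith
      have h2 : C1 * T ≤ C1 ^ 2 * K * T := by
        have e1 : C1 * T ≤ C1 ^ 2 * T := mul_le_mul_of_nonneg_right hC2 hT0.le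
        have e2 : C1 ^ 2 * T ≤ C1 ^ 2 * T * K := le_mul_of_one_le_right (by positivity) hK
        linarith
      calc 4 / s ^ 2 * (C1 * T) = 4 * (C1 * T) * (1 / s ^ 2) := by ring
        _ ≤ 4 * (C1 ^ 2 * K * T) * (1 / (s * q)) :=
          mul_le_mul (by linarith) h1 (by positivity) (by positivity)
        _ = 4 * C1 ^ 2 * K * T * (1 / (s * q)) := by ring
    have g5 : 4 * C1 * K * T * (1 / (s * q)) ≤ 4 * C1 ^ 2 * K * T * (1 / (s * q)) := by
      have : 0 ≤ K * T * (1 / (s * q)) := by positivity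
      nlinarith
    have hsum : 4 / s ^ 2 * ((∫ t in (T + L)..(2 * T - L), ‖W u t‖ * ‖G u t‖) + C1 * T) ≤
        4 / s ^ 2 * (((K * q * ((C1 * (Real.exp (-u) + 1 / L)) ^ 2 * (2 * T - L - (T + L))) +
          1 / (K * q) * Gn) / 2 + (b * Qn + 1 / b * Gn) / 2 +
          (K * L / s * A + 1 / (K * L / s) * Gn) / 2) + C1 * T) := by
      apply mul_le_mul_of_nonneg_left _ (by positivity)
      linarith
    have hX : 0 ≤ C1 ^ 2 * K * T * (1 / (s * q)) := by positivity
    have hfin : (4 * C1 * K * T / δ + 2 * C1 * K * T) / L =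
        4 * C1 * K * T / δ / L + 2 * C1 * K * T / L := add_div _ _ _
    rw [hfin]
    calc |F u| ≤ _ := hF1
      _ ≤ _ := hsum
      _ = 4 / s ^ 2 * ((K * q * ((C1 * (Real.exp (-u) + 1 / L)) ^ 2 * (2 * T - L - (T + L))) +
          1 / (K * q) * Gn) / 2) + 4 / s ^ 2 * ((b * Qn + 1 / b * Gn) / 2) +
          4 / s ^ 2 * ((K * L / s * A + 1 / (K * L / s) * Gn) / 2) + 4 / s ^ 2 * (C1 * T) := by ring
      _ ≤ _ := by linarith
  -- integrate the low part
  have iS : IntervalIntegrable (fun u : ℝ => 1 / ((1 + u) * Real.sqrt (1 + u))) volume 0 (L / 2) := by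
    apply ContinuousOn.intervalIntegrable
    intro u hu
    rw [uIcc_of_le hM0] at hu
    have h1 : (0 : ℝ) < 1 + u := by linarith [hu.1]
    apply ContinuousAt.continuousWithinAt
    apply ContinuousAt.div continuousAt_const (by fun_prop)
    exact (mul_pos h1 (Real.sqrt_pos.2 h1)).ne'
  have iA : IntervalIntegrable (fun u : ℝ =>
      (∫ t in (T + L)..(2 * T - L), ‖D u t‖ ^ 2) * (1 / (1 + u) ^ 3)) volume 0 (L / 2) := by
    apply ContinuousOn.intervalIntegrable
    apply cA.continuousOn.mul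
    intro u hu
    rw [uIcc_of_le hM0] at hu
    have h1 : (0 : ℝ) < 1 + u := by linarith [hu.1]
    apply ContinuousAt.continuousWithinAt
    apply ContinuousAt.div continuousAt_const (by fun_prop)
    exact (pow_pos h1 3).ne'
  have hlow : |∫ u in (0 : ℝ)..(L / 2), F u| ≤
      (4 * C1 * K * T / δ + 2 * C1 * K * T) / 2 + 40 * C1 ^ 2 * K * T + 5 * C1 * K * T := by
    have hfin : ‖∫ u in (0 : ℝ)..(L / 2), F u‖ ≤
        ∫ u in (0 : ℝ)..(L / 2), ((4 * C1 * K * T / δ + 2 * C1 * K * T) / L +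
          20 * C1 ^ 2 * K * T * (1 / ((1 + u) * Real.sqrt (1 + u))) +
          2 * K * L * ((∫ t in (T + L)..(2 * T - L), ‖D u t‖ ^ 2) * (1 / (1 + u) ^ 3))) := by
      apply intervalIntegral.norm_integral_le_of_norm_le hM0
      · refine Filter.Eventually.of_forall fun u hu => ?_
        rw [Real.norm_eq_abs]
        exact hpt u (Ioc_subset_Icc_self hu)
      · exact (intervalIntegrable_const.add (iS.const_mul _)).add (iA.const_mul _)
    rw [Real.norm_eq_abs] at hfin
    refine hfin.trans ?_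
    rw [intervalIntegral.integral_add (intervalIntegrable_const.add (iS.const_mul _)) (iA.const_mul _),
      intervalIntegral.integral_add intervalIntegrable_const (iS.const_mul _),
      intervalIntegral.integral_const_mul, intervalIntegral.integral_const_mul,
      intervalIntegral.integral_const, smul_eq_mul]
    have k1 := int_pow (L / 2) hM0
    have k2 := int_parts (L / 2) (C1 * T / L ^ 2) hM _ cA hA0 (by positivity) (fun U h1 h2 => by
      have := hDn U h1 h2
      calc _ ≤ C1 * U ^ 4 * T / L ^ 2 := this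
        _ = C1 * T / L ^ 2 * U ^ 4 := by ring)
    have m1 : (L / 2 - 0) * ((4 * C1 * K * T / δ + 2 * C1 * K * T) / L) =
        (4 * C1 * K * T / δ + 2 * C1 * K * T) / 2 := by
      field_simp
      ring
    have m2 : 20 * C1 ^ 2 * K * T * (∫ u in (0 : ℝ)..(L / 2), 1 / ((1 + u) * Real.sqrt (1 + u))) ≤
        20 * C1 ^ 2 * K * T * 2 := mul_le_mul_of_nonneg_left k1 (by positivity)
    have m3 : 2 * K * L * (∫ u in (0 : ℝ)..(L / 2),
        (∫ t in (T + L)..(2 * T - L), ‖D u t‖ ^ 2) * (1 / (1 + u) ^ 3)) ≤ 5 * C1 * K * T := by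
      calc _ ≤ 2 * K * L * (C1 * T / L ^ 2 * (1 + 4 * (L / 2))) :=
            mul_le_mul_of_nonneg_left k2 (by positivity)
        _ = 2 * (C1 * K * T) / L + 4 * (C1 * K * T) := by
            field_simp
        _ ≤ 5 * C1 * K * T := by
            have h0 : 0 ≤ C1 * K * T := by positivity
            have : 2 * (C1 * K * T) / L ≤ C1 * K * T := by
              rw [div_le_iff₀ hL0]
              nlinarith
            linarith
    rw [m1]
    linarith
  -- high frequencies
  have hhigh : |∫ u in Ioi (L / 2), F u| ≤ C1 * T := by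
    obtain ⟨ht1, ht2⟩ := tail_int (M := L / 2) (by linarith)
    have h1 : ‖∫ u in Ioi (L / 2), F u‖ ≤ ∫ u in Ioi (L / 2), 2 * C1 * T * u ^ (-2 : ℝ) := by
      apply norm_integral_le_of_norm_le (ht1.const_mul _)
      refine (ae_restrict_iff' measurableSet_Ioi).2 (Filter.Eventually.of_forall fun u hu => ?_)
      have hu1 : L / 2 < u := hu
      have hu0 : 0 < u := by linarith
      rw [Real.norm_eq_abs, hFdef]
      simp only
      rw [abs_mul]
      have e1 : |r u| ≤ u ^ (-2 : ℝ) := by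
        rw [Real.rpow_neg hu0.le, show (2 : ℝ) = ((2 : ℕ) : ℝ) by norm_num, Real.rpow_natCast,
          ← one_div, le_div_iff₀ (by positivity)]
        exact hr2 u
      have e2 : (∫ t in (T + L)..(2 * T - L), ‖W u t‖ * ‖G u t‖) ≤ C1 * T := by
        have f1 : (∫ t in (T + L)..(2 * T - L), ‖W u t‖ * ‖G u t‖) ≤
            ∫ t in (T + L)..(2 * T - L), (1 / L ^ 4 / 2 * ‖W u t‖ ^ 2 + L ^ 4 / 2 * ‖G u t‖ ^ 2) := by
          have cW' : Continuous (W u) := cW.comp (hcu u)
          have cG' : Continuous (G u) := cG.comp (hcu u)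
          have iWG : IntervalIntegrable (fun t => ‖W u t‖ * ‖G u t‖) volume
              (T + L) (2 * T - L) := (cW'.norm.mul cG'.norm).intervalIntegrable _ _
          apply intervalIntegral.integral_mono_on hab iWG
          · apply Continuous.intervalIntegrable
            fun_prop
          · intro t _
            have h := young (q := 1 / L ^ 4) (by positivity) ‖W u t‖ ‖G u t‖
            have h' : 1 / (1 / L ^ 4) = L ^ 4 := by field_simp
            rw [h'] at h
            linarith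
        have iW' : IntervalIntegrable (fun t => ‖W u t‖ ^ 2) volume (T + L) (2 * T - L) :=
          (iW u).intervalIntegrable
        have iG' : IntervalIntegrable (fun t => ‖G u t‖ ^ 2) volume (T + L) (2 * T - L) :=
          (iG u).intervalIntegrable
        rw [intervalIntegral.integral_add (iW'.const_mul _) (iG'.const_mul _),
          intervalIntegral.integral_const_mul, intervalIntegral.integral_const_mul] at f1
        have f2 := mul_le_mul_of_nonneg_left (hWi u hu0.le)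
          (show (0 : ℝ) ≤ 1 / L ^ 4 / 2 by positivity)
        have f3 := mul_le_mul_of_nonneg_left (hGh u hu1.le)
          (show (0 : ℝ) ≤ L ^ 4 / 2 by positivity)
        have f4 : 1 / L ^ 4 / 2 * (C1 * T * L ^ 4) = C1 * T / 2 := by field_simp
        have f5 : L ^ 4 / 2 * C1 ≤ C1 * T / 2 := by nlinarith
        linarith
      have e3 := htot u hu0.le
      have e4 : |(∫ t : ℝ, W u t * (starRingEnd ℂ) (G u t)).re| ≤ 2 * C1 * T := by linarith
      calc |r u| * |(∫ t : ℝ, W u t * (starRingEnd ℂ) (G u t)).re| ≤ u ^ (-2 : ℝ) * (2 * C1 * T) :=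
            mul_le_mul e1 e4 (abs_nonneg _) (Real.rpow_nonneg hu0.le _)
        _ = 2 * C1 * T * u ^ (-2 : ℝ) := by ring
    rw [Real.norm_eq_abs, integral_const_mul, ht2] at h1
    have h2 : 2 * C1 * T * (1 / (L / 2)) ≤ C1 * T := by
      have e : 2 * C1 * T * (1 / (L / 2)) = 4 * (C1 * T) / L := by field_simp; ring
      rw [e, div_le_iff₀ hL0]
      have : 0 ≤ C1 * T := by positivity
      nlinarith
    linarith
  have hsplit : ∫ u in Ioi (0 : ℝ), F u = (∫ u in (0 : ℝ)..(L / 2), F u) + ∫ u in Ioi (L / 2), F u := by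
    rw [intervalIntegral.integral_of_le hM0, ← setIntegral_union
      (by
        rw [Set.disjoint_left]
        intro x h1 h2
        exact absurd h1.2 (not_le.2 h2)) measurableSet_Ioi hFi.integrableOn hFi.integrableOn,
      Ioc_union_Ioi_eq_Ioi hM0]
  rw [hsplit]
  have h0 : 0 ≤ C1 * K * T := by positivity
  have h2 : C1 * K * T ≤ C1 ^ 2 * K * T := by
    have : C1 * (K * T) ≤ C1 ^ 2 * (K * T) := mul_le_mul_of_nonneg_right hC2 (by positivity)
    linarith
  have h3 : C1 * T ≤ C1 * K * T := by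
    have : C1 * T * 1 ≤ C1 * T * K := mul_le_mul_of_nonneg_left hK (by positivity)
    linarith
  have h4 : (200 * C1 ^ 2 + 4 * C1 / δ) * K * T = 200 * (C1 ^ 2 * K * T) + 4 * C1 * K * T / δ := by
    field_simp
  have h5 : 0 ≤ 4 * C1 * K * T / δ := by positivity
  rw [h4]
  calc |(∫ u in (0 : ℝ)..(L / 2), F u) + ∫ u in Ioi (L / 2), F u| ≤
      |∫ u in (0 : ℝ)..(L / 2), F u| + |∫ u in Ioi (L / 2), F u| := abs_add_le _ _
    _ ≤ _ := by linarith

end Pool.Agent.U473.MV3.CE
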