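import Pool.Agent.U398.MV.Stm3
import Pool.Agent.U358.MV2.IDS

set_option autoImplicit false

/-! Package IDB of project MV3: the bilinear Plancherel identity with Gaussian windows. -/

namespace Pool.Agent.U473.MV3.IDB

open MeasureTheory Filter Topology Set Complex Pool.Agent.U398.MV
open Pool.Agent.U671.MV.ID (V V_eq int_c int_s V_int V_cont2 gauss_int
  gauss_val gauss_eq exp_le_one V_integrand_int)
open Pool.Agent.U358.MV2.IDS (K2 K2_nonneg K2_le V_meas Lg gp_int gp_val gg_meas gg_bd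
  gg_integrable)

noncomputable section

variable {Ω : Type} [MeasurableSpace Ω] {κ κ' : Measure Ω} {W Z X Y : Ω → ℝ}

/-- the integrand of the double integral -/
def G3 (W Z X Y : Ω → ℝ) (u : ℝ) (p : Ω × Ω) (t : ℝ) : ℝ :=
  W p.1 * Z p.2 * (Real.cos (u * (X p.1 - Y p.2)) *
    (Real.exp (-(X p.1 - t) ^ 2 / 2) * Real.exp (-(Y p.2 - t) ^ 2 / 2)))

lemma re_eq [SFinite κ] [SFinite κ'] (hW : Integrable W κ) (hZ : Integrable Z κ')
    (hX : Measurable X) (hY : Measurable Y) (u t : ℝ) :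
    (V κ W X u t * (starRingEnd ℂ) (V κ' Z Y u t)).re = ∫ p, G3 W Z X Y u p t ∂(κ.prod κ') := by
  rw [V_eq hW hX, V_eq hZ hY, map_add, map_mul, Complex.conj_ofReal, Complex.conj_ofReal,
    Complex.conj_I]
  have h : ∀ A B A' B' : ℝ, (((A : ℂ) + (B : ℂ) * I) * ((A' : ℂ) + (B' : ℂ) * -I)).re =
      A * A' + B * B' := by
    intro A B A' B'
    simp
  rw [h, ← integral_prod_mul, ← integral_prod_mul,
    ← integral_add ((int_c hW hX u t).mul_prod (int_c hZ hY u t))
      ((int_s hW hX u t).mul_prod (int_s hZ hY u t))]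
  refine integral_congr_ae (ae_of_all _ fun p => ?_)
  simp only [G3]
  rw [mul_sub, Real.cos_sub]
  ring

lemma G3_meas (hW : Integrable W κ) (hZ : Integrable Z κ') (hX : Measurable X)
    (hY : Measurable Y) [SFinite κ] [SFinite κ'] (u : ℝ) :
    AEStronglyMeasurable (Function.uncurry (G3 W Z X Y u))
      ((κ.prod κ').prod (volume : Measure ℝ)) := by
  have h1 : AEStronglyMeasurable (fun q : (Ω × Ω) × ℝ => W q.1.1 * Z q.1.2)
      ((κ.prod κ').prod (volume : Measure ℝ)) :=
    (hW.mul_prod hZ).aestronglyMeasurable.comp_fst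
  have h2 : Measurable (fun q : (Ω × Ω) × ℝ => (Real.cos (u * (X q.1.1 - Y q.1.2)) *
    (Real.exp (-(X q.1.1 - q.2) ^ 2 / 2) * Real.exp (-(Y q.1.2 - q.2) ^ 2 / 2)))) := by
    fun_prop
  exact h1.mul h2.aestronglyMeasurable

omit [MeasurableSpace Ω] in
lemma G3_norm (u : ℝ) (p : Ω × Ω) (t : ℝ) : ‖G3 W Z X Y u p t‖ ≤ |W p.1 * Z p.2| *
    (Real.exp (-(X p.1 - t) ^ 2 / 2) * Real.exp (-(Y p.2 - t) ^ 2 / 2)) := by
  rw [Real.norm_eq_abs, G3, abs_mul]
  apply mul_le_mul_of_nonneg_left _ (abs_nonneg _)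
  rw [abs_mul, abs_of_pos (mul_pos (Real.exp_pos _) (Real.exp_pos _))]
  exact mul_le_of_le_one_left (mul_pos (Real.exp_pos _) (Real.exp_pos _)).le
    (Real.abs_cos_le_one _)

lemma G3_int (hW : Integrable W κ) (hZ : Integrable Z κ') (hX : Measurable X)
    (hY : Measurable Y) [SFinite κ] [SFinite κ'] (u : ℝ) :
    Integrable (Function.uncurry (G3 W Z X Y u)) ((κ.prod κ').prod (volume : Measure ℝ)) := by
  rw [integrable_prod_iff (G3_meas hW hZ hX hY u)]
  have hin : ∀ p : Ω × Ω, Integrable (fun t : ℝ => G3 W Z X Y u p t) := fun p =>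
    ((gauss_int (X p.1) (Y p.2)).const_mul (W p.1 * Z p.2 * Real.cos (u * (X p.1 - Y p.2)))).congr
      (ae_of_all _ fun t => by simp only [G3]; ring)
  refine ⟨ae_of_all _ fun p => hin p, ?_⟩
  refine Integrable.mono' (g := fun p : Ω × Ω => |W p.1 * Z p.2| * Real.sqrt Real.pi)
    ((hW.mul_prod hZ).abs.mul_const _) (G3_meas hW hZ hX hY u).norm.integral_prod_right'
    (ae_of_all _ fun p => ?_)
  rw [Real.norm_eq_abs, abs_of_nonneg (integral_nonneg fun t => norm_nonneg _)]
  calc ∫ t : ℝ, ‖Function.uncurry (G3 W Z X Y u) (p, t)‖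
      ≤ ∫ t : ℝ, |W p.1 * Z p.2| *
        (Real.exp (-(X p.1 - t) ^ 2 / 2) * Real.exp (-(Y p.2 - t) ^ 2 / 2)) :=
        integral_mono (hin p).norm ((gauss_int _ _).const_mul _) fun t => G3_norm u p t
    _ = |W p.1 * Z p.2| * (Real.sqrt Real.pi * Real.exp (-(X p.1 - Y p.2) ^ 2 / 4)) := by
        rw [integral_const_mul, gauss_val]
    _ ≤ _ := by
        apply mul_le_mul_of_nonneg_left _ (abs_nonneg _)
        apply mul_le_of_le_one_right (Real.sqrt_nonneg _)
        rw [Real.exp_le_one_iff]; nlinarith [sq_nonneg (X p.1 - Y p.2)]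

/-- the correlation -/
def Co3 (κ κ' : Measure Ω) (W Z X Y : Ω → ℝ) (u : ℝ) : ℝ :=
  (∫ t : ℝ, V κ W X u t * (starRingEnd ℂ) (V κ' Z Y u t)).re

lemma VV_bound (hW : Integrable W κ) (hZ : Integrable Z κ') (hX : Measurable X)
    (hY : Measurable Y) [SFinite κ] [SFinite κ'] (u : ℝ) :
    Integrable (fun t : ℝ => (‖V κ W X u t‖ ^ 2 + ‖V κ' Z Y u t‖ ^ 2) / 2) :=
  ((V_int hW hX u).add (V_int hZ hY u)).div_const 2

lemma VV_le (u t : ℝ) : ‖V κ W X u t * (starRingEnd ℂ) (V κ' Z Y u t)‖ ≤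
    (‖V κ W X u t‖ ^ 2 + ‖V κ' Z Y u t‖ ^ 2) / 2 := by
  rw [norm_mul, RCLike.norm_conj]
  nlinarith [sq_nonneg (‖V κ W X u t‖ - ‖V κ' Z Y u t‖)]

lemma VV_int (hW : Integrable W κ) (hZ : Integrable Z κ') (hX : Measurable X)
    (hY : Measurable Y) [SFinite κ] [SFinite κ'] (u : ℝ) :
    Integrable (fun t : ℝ => V κ W X u t * (starRingEnd ℂ) (V κ' Z Y u t)) := by
  refine Integrable.mono' (VV_bound hW hZ hX hY u) ?_ (ae_of_all _ fun t => VV_le u t)
  exact (V_meas hW hX u).mul (Complex.continuous_conj.comp_aestronglyMeasurable (V_meas hZ hY u))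

lemma Co_eq (hW : Integrable W κ) (hZ : Integrable Z κ') (hX : Measurable X)
    (hY : Measurable Y) [SFinite κ] [SFinite κ'] (u : ℝ) :
    Co3 κ κ' W Z X Y u = ∫ p, W p.1 * Z p.2 * (Real.cos (u * (X p.1 - Y p.2)) * K2 X Y p)
      ∂(κ.prod κ') := by
  have h0 : Co3 κ κ' W Z X Y u = ∫ t : ℝ, (V κ W X u t * (starRingEnd ℂ) (V κ' Z Y u t)).re :=
    (integral_re (VV_int hW hZ hX hY u)).symm
  rw [h0]
  simp_rw [re_eq hW hZ hX hY]
  rw [integral_integral_swap (f := fun t p => G3 W Z X Y u p t)]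
  · refine integral_congr_ae (ae_of_all _ fun p => ?_)
    simp only [G3, K2]
    rw [← gauss_val, integral_const_mul, integral_const_mul]
  · exact (G3_int hW hZ hX hY u).swap

lemma Co_even (hW : Integrable W κ) (hZ : Integrable Z κ') (hX : Measurable X)
    (hY : Measurable Y) [SFinite κ] [SFinite κ'] (u : ℝ) :
    Co3 κ κ' W Z X Y (-u) = Co3 κ κ' W Z X Y u := by
  rw [Co_eq hW hZ hX hY, Co_eq hW hZ hX hY]
  simp_rw [neg_mul, Real.cos_neg]

/-! Integration over the frequency. -/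

lemma freq_int3 (hW : Integrable W κ) (hZ : Integrable Z κ') (hX : Measurable X)
    (hY : Measurable Y) [SFinite κ] [SFinite κ'] {r : ℝ → ℝ} (hr : Integrable r) :
    Integrable (fun q : ℝ × (Ω × Ω) => r q.1 * (W q.2.1 * Z q.2.2 *
      (Real.cos (q.1 * (X q.2.1 - Y q.2.2)) * K2 X Y q.2)))
      ((volume : Measure ℝ).prod (κ.prod κ')) := by
  have h0 : Integrable (fun q : ℝ × (Ω × Ω) => r q.1 * (W q.2.1 * Z q.2.2))
      ((volume : Measure ℝ).prod (κ.prod κ')) := hr.mul_prod (hW.mul_prod hZ)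
  have h1 := h0.bdd_mul (f := fun q : ℝ × (Ω × Ω) =>
      Real.cos (q.1 * (X q.2.1 - Y q.2.2)) * K2 X Y q.2) (c := Real.sqrt Real.pi) (by
        apply Measurable.aestronglyMeasurable
        unfold K2; fun_prop) (ae_of_all _ fun q => by
      rw [Real.norm_eq_abs, abs_mul, abs_of_nonneg (K2_nonneg q.2)]
      exact (mul_le_of_le_one_left (K2_nonneg q.2) (Real.abs_cos_le_one _)).trans (K2_le q.2))
  refine h1.congr (ae_of_all _ fun q => ?_)
  simp only; ring

lemma freq_integrable3 (hW : Integrable W κ) (hZ : Integrable Z κ') (hX : Measurable X)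
    (hY : Measurable Y) [SFinite κ] [SFinite κ'] {r : ℝ → ℝ} (hr : Integrable r) :
    Integrable (fun u : ℝ => r u * Co3 κ κ' W Z X Y u) := by
  simp_rw [Co_eq hW hZ hX hY, ← integral_const_mul]
  exact (freq_int3 hW hZ hX hY hr).integral_prod_left

lemma freq_val3 (hW : Integrable W κ) (hZ : Integrable Z κ') (hX : Measurable X)
    (hY : Measurable Y) [SFinite κ] [SFinite κ'] {r : ℝ → ℝ} (hr : Integrable r) :
    ∫ u : ℝ, r u * Co3 κ κ' W Z X Y u =
      ∫ p, W p.1 * Z p.2 * (Real.sqrt Real.pi * ((∫ u : ℝ, r u * Real.cos (u * (X p.1 - Y p.2))) *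
        Real.exp (-(X p.1 - Y p.2) ^ 2 / 4))) ∂(κ.prod κ') := by
  simp_rw [Co_eq hW hZ hX hY, ← integral_const_mul]
  rw [integral_integral_swap (f := fun (u : ℝ) (p : Ω × Ω) => r u * (W p.1 * Z p.2 *
      (Real.cos (u * (X p.1 - Y p.2)) * K2 X Y p))) (freq_int3 hW hZ hX hY hr)]
  refine integral_congr_ae (ae_of_all _ fun p => ?_)
  simp only
  rw [← integral_mul_const, ← integral_const_mul, ← integral_const_mul]
  refine integral_congr_ae (ae_of_all _ fun u => ?_)
  simp only [K2]; ring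

/-! The convolutions with a kernel `g`. -/

def H3 (W Z X Y : Ω → ℝ) (g : ℝ → ℝ) (p : Ω × Ω) (t : ℝ) : ℝ :=
  W p.1 * Z p.2 * (g (t - X p.1) * g (t - Y p.2))

lemma L_mul [SFinite κ] [SFinite κ'] (g : ℝ → ℝ) (t : ℝ) :
    Lg κ W X g t * Lg κ' Z Y g t = ∫ p, H3 W Z X Y g p t ∂(κ.prod κ') := by
  rw [Lg, Lg, ← integral_prod_mul]
  refine integral_congr_ae (ae_of_all _ fun p => ?_)
  simp only [H3]; ring

lemma H3_meas (hW : Integrable W κ) (hZ : Integrable Z κ') (hX : Measurable X)
    (hY : Measurable Y) [SFinite κ] [SFinite κ']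
    {g : ℝ → ℝ} (hg : Measurable g) :
    AEStronglyMeasurable (Function.uncurry (H3 W Z X Y g))
      ((κ.prod κ').prod (volume : Measure ℝ)) := by
  have h1 : AEStronglyMeasurable (fun q : (Ω × Ω) × ℝ => W q.1.1 * Z q.1.2)
      ((κ.prod κ').prod (volume : Measure ℝ)) :=
    (hW.mul_prod hZ).aestronglyMeasurable.comp_fst
  have h2 : Measurable (fun q : (Ω × Ω) × ℝ => g (q.2 - X q.1.1) * g (q.2 - Y q.1.2)) := by
    apply Measurable.mul
    · exact hg.comp (measurable_snd.sub (hX.comp (measurable_fst.comp measurable_fst)))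
    · exact hg.comp (measurable_snd.sub (hY.comp (measurable_snd.comp measurable_fst)))
  exact h1.mul h2.aestronglyMeasurable

lemma H3_int (hW : Integrable W κ) (hZ : Integrable Z κ') (hX : Measurable X)
    (hY : Measurable Y) [SFinite κ] [SFinite κ']
    {g : ℝ → ℝ} (hg : Measurable g) (hgi : Integrable g) (hb : ∀ x, |g x| ≤ 1) :
    Integrable (Function.uncurry (H3 W Z X Y g)) ((κ.prod κ').prod (volume : Measure ℝ)) := by
  rw [integrable_prod_iff (H3_meas hW hZ hX hY hg)]
  have hin : ∀ p : Ω × Ω, Integrable (fun t : ℝ => H3 W Z X Y g p t) := fun p =>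
    (gp_int hg hgi hb _ _).const_mul _
  refine ⟨ae_of_all _ fun p => hin p, ?_⟩
  refine Integrable.mono' (g := fun p : Ω × Ω => |W p.1 * Z p.2| * ∫ t : ℝ, |g t|)
    ((hW.mul_prod hZ).abs.mul_const _) (H3_meas hW hZ hX hY hg).norm.integral_prod_right'
    (ae_of_all _ fun p => ?_)
  rw [Real.norm_eq_abs, abs_of_nonneg (integral_nonneg fun t => norm_nonneg _)]
  calc ∫ t : ℝ, ‖Function.uncurry (H3 W Z X Y g) (p, t)‖
      ≤ ∫ t : ℝ, |W p.1 * Z p.2| * |g (t - X p.1)| := by
        refine integral_mono (hin p).norm ((hgi.comp_sub_right _).abs.const_mul _) fun t => ?_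
        simp only [Function.uncurry, H3, Real.norm_eq_abs]
        rw [abs_mul, abs_mul (g _)]
        apply mul_le_mul_of_nonneg_left _ (abs_nonneg _)
        exact mul_le_of_le_one_right (abs_nonneg _) (hb _)
    _ = _ := by
        rw [integral_const_mul, integral_sub_right_eq_self (fun t : ℝ => |g t|)]

lemma L_val (hW : Integrable W κ) (hZ : Integrable Z κ') (hX : Measurable X)
    (hY : Measurable Y) [SFinite κ] [SFinite κ']
    {g c : ℝ → ℝ} (hg : Measurable g) (hgi : Integrable g) (hb : ∀ x, |g x| ≤ 1)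
    (hc : ∀ z : ℝ, ∫ t : ℝ, g t * g (t + z) = c z) :
    ∫ t : ℝ, Lg κ W X g t * Lg κ' Z Y g t =
      ∫ p, W p.1 * Z p.2 * c (X p.1 - Y p.2) ∂(κ.prod κ') := by
  simp_rw [L_mul]
  rw [integral_integral_swap (f := fun t p => H3 W Z X Y g p t)]
  · refine integral_congr_ae (ae_of_all _ fun p => ?_)
    simp only [H3]
    rw [integral_const_mul, gp_val hc]
  · exact (H3_int hW hZ hX hY hg hgi hb).swap

theorem plancherel3 (hW : Integrable W κ) (hZ : Integrable Z κ') (hX : Measurable X)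
    (hY : Measurable Y) [SFinite κ] [SFinite κ']
    {g c r : ℝ → ℝ} (hg : Measurable g) (hgi : Integrable g) (hb : ∀ x, |g x| ≤ 1)
    (hc : ∀ z : ℝ, ∫ t : ℝ, g t * g (t + z) = c z) (hr : Integrable r)
    (hv : ∀ z, (∫ u : ℝ, r u * Real.cos (u * z)) * Real.exp (-z ^ 2 / 4) = c z) :
    (∫ t : ℝ, Lg κ W X g t * Lg κ' Z Y g t) =
      1 / Real.sqrt Real.pi * ∫ u : ℝ, r u * Co3 κ κ' W Z X Y u := by
  rw [L_val hW hZ hX hY hg hgi hb hc, freq_val3 hW hZ hX hY hr, ← integral_const_mul]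
  refine integral_congr_ae (ae_of_all _ fun p => ?_)
  simp only
  rw [hv]
  have : Real.sqrt Real.pi ≠ 0 := (Real.sqrt_pos.2 Real.pi_pos).ne'
  field_simp

/-! The measures. -/

variable {ι : Type} (S : Finset ι) (w x : ι → ℝ) (f : ℝ → ℝ) (a b : ℝ)

/-- points with weights and a density `-f` on `(a, b]` -/
def kf : Measure (ℝ × ℝ) :=
  (∑ i ∈ S, Measure.dirac (x i, w i)) +
    Measure.map (fun y : ℝ => (y, -f y)) (volume.restrict (Ioc a b))

instance : IsFiniteMeasure (kf S w x f a b) := by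
  unfold kf; infer_instance

variable {f}

lemma kf_snd (hf : Continuous f) : Integrable (Prod.snd : ℝ × ℝ → ℝ) (kf S w x f a b) := by
  unfold kf
  refine Integrable.add_measure ?_ ?_
  · rw [integrable_finsetSum_measure]
    intro i _
    exact integrable_dirac (by simp)
  · rw [integrable_map_measure (by fun_prop) (by fun_prop)]
    exact (hf.neg.integrableOn_Icc (a := a) (b := b)).mono_set Ioc_subset_Icc_self

lemma kf_int (hf : Continuous f) {E : Type} [NormedAddCommGroup E] [NormedSpace ℝ E]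
    [CompleteSpace E] {F : ℝ × ℝ → E}
    (hF : Integrable F (kf S w x f a b)) :
    ∫ p, F p ∂(kf S w x f a b) = ∑ i ∈ S, F (x i, w i) + ∫ y in Ioc a b, F (y, -f y) := by
  unfold kf at hF ⊢
  have h1 := hF.left_of_add_measure
  have h2 := hF.right_of_add_measure
  rw [integral_add_measure h1 h2, integral_finsetSum_measure (integrable_finsetSum_measure.1 h1),
    integral_map (by fun_prop) h2.aestronglyMeasurable]
  simp_rw [integral_dirac]

lemma V_kf (hf : Continuous f) (hab : a ≤ b) (u t : ℝ) :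
    V (kf S w x f a b) Prod.snd Prod.fst u t =
      (∑ i ∈ S, (w i : ℂ) * (cexp (I * u * x i) * cexp (-((x i : ℂ) - t) ^ 2 / 2))) -
        Wg f a b u t := by
  unfold V
  rw [kf_int _ _ _ _ _ hf (V_integrand_int (kf_snd S w x a b hf) measurable_fst u t), Wg,
    intervalIntegral.integral_of_le hab, sub_eq_add_neg, ← integral_neg]
  congr 1
  refine integral_congr_ae (ae_of_all _ fun y => ?_)
  simp only
  push_cast
  ring

lemma L_kf (hf : Continuous f) (hab : a ≤ b) (t : ℝ) :
    Lg (kf S w x f a b) Prod.snd Prod.fst gg t =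
      (∑ i ∈ S, w i * gg (t - x i)) - ∫ y in a..b, f y * gg (t - y) := by
  unfold Lg
  have hi : Integrable (fun p : ℝ × ℝ => p.2 * gg (t - p.1)) (kf S w x f a b) := by
    have h1 := (kf_snd S w x a b hf).bdd_mul (f := fun p : ℝ × ℝ => gg (t - p.1)) (c := 1)
      (gg_meas.comp (measurable_const.sub measurable_fst)).aestronglyMeasurable
      (ae_of_all _ fun p => by rw [Real.norm_eq_abs]; exact gg_bd _)
    refine h1.congr (ae_of_all _ fun p => ?_)
    simp only; ring
  rw [kf_int _ _ _ _ _ hf hi, intervalIntegral.integral_of_le hab, sub_eq_add_neg,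
    ← integral_neg]
  congr 1
  refine integral_congr_ae (ae_of_all _ fun y => ?_)
  simp only
  ring

lemma int_e (hf : Continuous f) (u t : ℝ) : IntervalIntegrable
    (fun y : ℝ => (f y : ℂ) * (cexp (I * u * y) * cexp (-((y : ℂ) - t) ^ 2 / 2))) volume a b := by
  apply Continuous.intervalIntegrable
  fun_prop

lemma int_g (hf : Continuous f) (t : ℝ) : IntervalIntegrable
    (fun y : ℝ => f y * gg (t - y)) volume a b := by
  have h1 : IntervalIntegrable f volume a b := hf.intervalIntegrable _ _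
  rw [intervalIntegrable_iff] at h1 ⊢
  have h2 := h1.bdd_mul (f := fun y : ℝ => gg (t - y)) (c := 1)
      (gg_meas.comp (measurable_const.sub measurable_id)).aestronglyMeasurable
      (ae_of_all _ fun p => by rw [Real.norm_eq_abs]; exact gg_bd _)
  refine h2.congr (ae_of_all _ fun p => ?_)
  simp only; ring

/-- Package IDB. -/
theorem t_IDB : S_RHO → S_RQ → S_IDB := by
  rintro hc ⟨C, -, -, hr, -, -, -, -, hv⟩ ι S w x lam a b f g hab hf hg
  have hf1 : Continuous (fun y => lam + f y) := by fun_prop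
  have hg1 : Continuous (fun y => -g y) := by fun_prop
  have hW := kf_snd S w x a b hf1
  have hZ := kf_snd (∅ : Finset ι) w x a b hg1
  have hX : Measurable (Prod.fst : ℝ × ℝ → ℝ) := measurable_fst
  have hVf : ∀ u t : ℝ, Vf S w x lam a b u t - Wg f a b u t =
      V (kf S w x (fun y => lam + f y) a b) Prod.snd Prod.fst u t := by
    intro u t
    rw [V_kf S w x a b hf1 hab, Vf]
    have h1 : Wg (fun y => lam + f y) a b u t =
        (lam : ℂ) * (∫ y in a..b, cexp (I * u * y) * cexp (-((y : ℂ) - t) ^ 2 / 2)) +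
          Wg f a b u t := by
      unfold Wg
      rw [← intervalIntegral.integral_const_mul, ← intervalIntegral.integral_add
        (int_e a b (f := fun _ => lam) continuous_const u t) (int_e a b hf u t)]
      congr 1
      funext y
      push_cast
      ring
    rw [h1]; ring
  have hWg : ∀ u t : ℝ, Wg g a b u t =
      V (kf (∅ : Finset ι) w x (fun y => -g y) a b) Prod.snd Prod.fst u t := by
    intro u t
    rw [V_kf (∅ : Finset ι) w x a b hg1 hab, Finset.sum_empty, zero_sub]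
    unfold Wg
    rw [← intervalIntegral.integral_neg]
    congr 1
    funext y
    push_cast
    ring
  have hLf : ∀ t : ℝ, Lf S w x lam a b gg t - (∫ y in a..b, f y * gg (t - y)) =
      Lg (kf S w x (fun y => lam + f y) a b) Prod.snd Prod.fst gg t := by
    intro t
    rw [L_kf S w x a b hf1 hab, Lf]
    have h1 : ∫ y in a..b, (lam + f y) * gg (t - y) =
        lam * (∫ y in a..b, gg (t - y)) + ∫ y in a..b, f y * gg (t - y) := by
      rw [← intervalIntegral.integral_const_mul, ← intervalIntegral.integral_add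
        (int_g a b (f := fun _ => lam) continuous_const t) (int_g a b hf t)]
      congr 1
      funext y
      ring
    rw [h1]; ring
  have hLg : ∀ t : ℝ, (∫ y in a..b, g y * gg (t - y)) =
      Lg (kf (∅ : Finset ι) w x (fun y => -g y) a b) Prod.snd Prod.fst gg t := by
    intro t
    rw [L_kf (∅ : Finset ι) w x a b hg1 hab, Finset.sum_empty, zero_sub,
      ← intervalIntegral.integral_neg]
    congr 1
    funext y
    ring
  simp_rw [hVf, hWg, hLf, hLg]
  exact ⟨fun u => Co_even hW hZ hX hX u, freq_integrable3 hW hZ hX hX hr,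
    plancherel3 hW hZ hX hX gg_meas gg_integrable gg_bd hc hr hv⟩

end

end Pool.Agent.U473.MV3.IDB
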